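import Pool.Agent.Helper39.G4L.Two
import Pool.Agent.Helper26.G4.Defs2

/-!
# Project G4 (MP_16b0ee_an): the final statement near `t = 2`

`fin`: from the strict real bound (`Pool.Agent.Helper90.G3.main3`) and the complex bound
(`Pool.Agent.Helper26.G4.main4`), here as hypotheses.
-/

set_option autoImplicit false

open Complex MeasureTheory Metric Set Filter Topology
open scoped Real ComplexConjugate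

namespace Pool.Agent.Helper39.G4L

/-- the complex upper bound in the form `Upper` -/
theorem upper_of_sg {t : ℂ} {s : ℝ}
    (H : ∃ C : ℝ, ∀ ψ h : ℂ → ℂ, Pool.Agent.Helper26.G4.Sg ψ h → ∀ R : ℝ, 1 < R →
      (1 / (2 * π)) * ∫ θ in (0:ℝ)..(2 * π),
        ‖Complex.exp (t * h ((R : ℂ) * Complex.exp ((θ : ℂ) * Complex.I)))‖ ≤
      C * (R ^ 2 / (R ^ 2 - 1)) ^ s) : Upper t s := by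
  obtain ⟨C, hC⟩ := H
  refine ⟨C, fun ψ h a1 a2 a3 a4 a5 a6 R hR => ?_⟩
  refine le_of_eq_of_le ?_ (hC ψ h ⟨a1, a2, a3, a4.continuousOn, a5, a6⟩ R hR)
  rw [one_div]

theorem fin
    (H3 : ∃ c : ℝ, 0 < c ∧ ∃ δ₀ : ℝ, 0 < δ₀ ∧ ∀ δ : ℝ, 0 < δ → δ < δ₀ → ∃ C : ℝ,
      ∀ ψ : ℂ → ℂ, DifferentiableOn ℂ ψ {z : ℂ | 1 < ‖z‖} → Set.InjOn ψ {z : ℂ | 1 < ‖z‖} →
      (∃ b : ℂ, Filter.Tendsto (fun z => ψ z - z) (Bornology.cobounded ℂ) (nhds b)) →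
      ∀ R : ℝ, 1 < R →
        (1 / (2 * π)) * ∫ θ in (0:ℝ)..(2 * π),
          ‖deriv ψ ((R : ℂ) * Complex.exp ((θ : ℂ) * Complex.I))‖ ^ (2 - δ) ≤
        C * (R ^ 2 / (R ^ 2 - 1)) ^ (1 - δ + (1 / 4 - c) * δ ^ 2))
    (H4 : ∀ ε : ℝ, 0 < ε → ∃ δ₀ : ℝ, 0 < δ₀ ∧ ∀ τ : ℂ, τ ≠ 0 → ‖τ‖ < δ₀ → ∃ C : ℝ,
      ∀ ψ h : ℂ → ℂ, Pool.Agent.Helper26.G4.Sg ψ h → ∀ R : ℝ, 1 < R →
        (1 / (2 * π)) * ∫ θ in (0:ℝ)..(2 * π),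
          ‖Complex.exp ((2 - τ) * h ((R : ℂ) * Complex.exp ((θ : ℂ) * Complex.I)))‖ ≤
        C * (R ^ 2 / (R ^ 2 - 1)) ^ (1 - τ.re + (1 / 4 + ε) * ‖τ‖ ^ 2)) :
    (∀ ε : ℝ, 0 < ε → ∃ δ₀ : ℝ, 0 < δ₀ ∧ ∀ τ : ℂ, τ ≠ 0 → ‖τ‖ < δ₀ →
      Upper (2 - τ) (1 - τ.re + (1 / 4 + ε) * ‖τ‖ ^ 2) ∧
      Low (2 - τ) (1 - τ.re + τ.im ^ 2 / 4 - ε * ‖τ‖ ^ 2)) ∧
    ∃ c : ℝ, 0 < c ∧ ∃ δ₀ : ℝ, 0 < δ₀ ∧ ∀ τ : ℂ, τ ≠ 0 → ‖τ‖ < δ₀ → |τ.im| ≤ c * τ.re →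
      Upper (2 - τ) (1 - τ.re + (1 / 4 - c) * ‖τ‖ ^ 2) := by
  have K4 : ∀ ε : ℝ, 0 < ε → ∃ δ₀ : ℝ, 0 < δ₀ ∧ ∀ τ : ℂ, τ ≠ 0 → ‖τ‖ < δ₀ →
      Upper (2 - τ) (1 - τ.re + (1 / 4 + ε) * ‖τ‖ ^ 2) := by
    intro ε hε
    obtain ⟨δ₀, hδ₀, h⟩ := H4 ε hε
    exact ⟨δ₀, hδ₀, fun τ h0 hτ => upper_of_sg (h τ h0 hτ)⟩
  constructor
  · intro ε hε
    obtain ⟨δ₁, hδ₁, h1⟩ := K4 ε hε
    obtain ⟨δ₂, hδ₂, h2⟩ := low_near hε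
    exact ⟨min δ₁ δ₂, lt_min hδ₁ hδ₂, fun τ h0 hτ =>
      ⟨h1 τ h0 (hτ.trans_le (min_le_left _ _)), h2 τ h0 (hτ.trans_le (min_le_right _ _))⟩⟩
  · refine cone ?_ K4
    obtain ⟨c, hc, δ₀, hδ₀, h⟩ := H3
    exact ⟨c, hc, δ₀, hδ₀, fun δ h0 h1 => upper_real (h δ h0 h1)⟩

end Pool.Agent.Helper39.G4L
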