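import Pool.Agent.Helper97.EKC.Sharp

/-!
# Project G4 (MP_16b0ee_an): the lower bound near `t = 2`

`mean_low`: for the spiral map `z (1 - 1/z)^(1+u)`, `|u| = 1`, `u ≠ -1`, and every complex `t` with
`- re (t u) > 1` the circle means of `|exp (t h)|`, `h = log ψ'`, are at least a constant times the
power `- re (t u) - 1` of `R² / (R² - 1)`. `low_all`: every exponent below `|t| - 1`.
`low_near`: near `t = 2`, written with `t = 2 - τ`: the exponent
`1 - re τ + (im τ)² / 4 - ε |τ|²` for all small `τ`.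
-/

set_option autoImplicit false

open Complex MeasureTheory Metric Set Filter Topology
open scoped Real ComplexConjugate

namespace Pool.Agent.Helper39.G4L

open Pool.Agent.Helper97.EKC

variable {u : ℂ}

theorem re_low (t : ℂ) (hu : ‖u‖ = 1) (z : ℂ) {M : ℝ}
    (hM : ‖Complex.log (1 + u * z⁻¹)‖ ≤ M) :
    (t * u).re * Real.log ‖1 - z⁻¹‖ - ‖t‖ * (π + M) ≤ (t * hh u z).re := by
  have e1 : t * hh u z = (t * u) * Complex.log (1 - z⁻¹) + t * Complex.log (1 + u * z⁻¹) := by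
    unfold hh
    ring
  rw [e1, Complex.add_re, Complex.mul_re (t * u), Complex.log_re, Complex.log_im]
  have h1 : (t * u).im * (1 - z⁻¹).arg ≤ ‖t‖ * π := by
    refine (le_abs_self _).trans ?_
    rw [abs_mul]
    refine mul_le_mul ?_ (Complex.abs_arg_le_pi _) (abs_nonneg _) (norm_nonneg _)
    refine (Complex.abs_im_le_norm _).trans ?_
    rw [norm_mul, hu, mul_one]
  have h2 : -(‖t‖ * M) ≤ (t * Complex.log (1 + u * z⁻¹)).re := by
    have h3 := Complex.abs_re_le_norm (t * Complex.log (1 + u * z⁻¹))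
    rw [norm_mul] at h3
    have h4 := mul_le_mul_of_nonneg_left hM (norm_nonneg t)
    have h5 := neg_le_of_abs_le (h3.trans h4)
    linarith
  linarith

/-- the lower bound for the means -/
theorem mean_low (hu : ‖u‖ = 1) (hu1 : u ≠ -1) {t : ℂ} {κ : ℝ} (hκ : 1 < κ)
    (ht : (t * u).re = -κ) :
    ∃ c : ℝ, 0 < c ∧ ∀ R : ℝ, 1 < R →
      c * (R ^ 2 / (R ^ 2 - 1)) ^ (κ - 1) ≤ (2 * π)⁻¹ * ∫ θ in (0:ℝ)..(2 * π),
        ‖Complex.exp (t * hh u (R * Complex.exp (θ * I)))‖ := by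
  have hpi := Real.pi_gt_three
  have hne : 1 + u ≠ 0 := by
    intro h
    apply hu1
    linear_combination h
  obtain ⟨δ, hδ⟩ : ∃ δ : ℝ, 4 * δ = ‖1 + u‖ := ⟨‖1 + u‖ / 4, by ring⟩
  have hδ0 : 0 < δ := by
    have := norm_pos_iff.2 hne
    linarith
  have hδ1 : δ ≤ 1 / 2 := by
    have : ‖1 + u‖ ≤ 2 := by
      refine (norm_add_le _ _).trans ?_
      rw [hu, norm_one]
      norm_num
    linarith
  obtain ⟨M, hM⟩ : ∃ M : ℝ, M = Real.log 2 - Real.log δ + π := ⟨_, rfl⟩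
  refine ⟨(2 * π)⁻¹ * (δ * (2 ^ (-κ) * Real.exp (-(‖t‖ * (π + M))))), by positivity,
    fun R hR => ?_⟩
  obtain ⟨r, hr⟩ : ∃ r : ℝ, r = R⁻¹ := ⟨_, rfl⟩
  have hR0 : 0 < R := by linarith
  have hr0 : 0 < r := by rw [hr]; positivity
  have hr1 : r < 1 := by rw [hr]; exact inv_lt_one_of_one_lt₀ hR
  obtain ⟨d, hd⟩ : ∃ d : ℝ, d = 1 - r := ⟨_, rfl⟩
  have hd0 : 0 < d := by linarith
  have hd1 : d < 1 := by linarith
  -- the left side
  have hL : (R ^ 2 / (R ^ 2 - 1)) ^ (κ - 1) ≤ d * d ^ (-κ) := by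
    have e1 : R ^ 2 / (R ^ 2 - 1) ≤ d⁻¹ := by
      have h1 : 0 < R ^ 2 - 1 := by nlinarith
      rw [hd, hr, div_le_iff₀ h1]
      have h2 : 0 < R - 1 := by linarith
      have h3 : (1 - R⁻¹)⁻¹ = R / (R - 1) := by field_simp
      rw [h3, div_mul_eq_mul_div, le_div_iff₀ h2]
      nlinarith
    have e2 : d⁻¹ ^ (κ - 1) = d * d ^ (-κ) := by
      rw [Real.inv_rpow hd0.le, ← Real.rpow_neg hd0.le]
      nth_rw 2 [← Real.rpow_one d]
      rw [← Real.rpow_add hd0]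
      congr 1
      ring
    rw [← e2]
    refine Real.rpow_le_rpow ?_ e1 (by linarith)
    have h1 : 0 < R ^ 2 - 1 := by nlinarith
    positivity
  -- the integrand
  obtain ⟨F, hF⟩ : ∃ F : ℝ → ℝ, F = fun θ : ℝ =>
    ‖Complex.exp (t * hh u (R * Complex.exp (θ * I)))‖ := ⟨_, rfl⟩
  have hout : ∀ θ : ℝ, 1 < ‖(R : ℂ) * Complex.exp (θ * I)‖ := by
    intro θ
    rw [norm_mul, Complex.norm_exp_ofReal_mul_I, mul_one, Complex.norm_real,
      Real.norm_of_nonneg hR0.le]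
    exact hR
  have hc : Continuous F := by
    rw [hF]
    have h1 : Continuous (fun θ : ℝ => hh u (R * Complex.exp (θ * I))) :=
      (hh_diff hu).continuousOn.comp_continuous (by fun_prop) hout
    exact continuous_norm.comp (Complex.continuous_exp.comp (continuous_const.mul h1))
  have hF0 : ∀ θ, 0 ≤ F θ := by
    intro θ
    rw [hF]
    exact norm_nonneg _
  have hb : δ * d ≤ 2 * π := by nlinarith
  have hb0 : 0 ≤ δ * d := by positivity
  have h1 : ∫ θ in (0:ℝ)..(δ * d), F θ ≤ ∫ θ in (0:ℝ)..(2 * π), F θ :=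
    intervalIntegral.integral_mono_interval le_rfl hb0 hb (Filter.Eventually.of_forall
      (fun θ => hF0 θ)) (hc.intervalIntegrable _ _)
  have h2 : ∫ _θ in (0:ℝ)..(δ * d), ((2 * d) ^ (-κ) * Real.exp (-(‖t‖ * (π + M)))) ≤
      ∫ θ in (0:ℝ)..(δ * d), F θ := by
    refine intervalIntegral.integral_mono_on hb0 (continuous_const.intervalIntegrable _ _)
      (hc.intervalIntegrable _ _) (fun θ hθ => ?_)
    rw [hF]
    have ei : ((R : ℂ) * Complex.exp (θ * I))⁻¹ = r * Complex.exp (-(θ * I)) := by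
      rw [mul_inv, ← Complex.exp_neg, hr]
      push_cast
      rfl
    have hθ1 : θ ≤ δ := hθ.2.trans (by nlinarith)
    have hθ2 : θ ≤ d := hθ.2.trans (by nlinarith)
    have hlog := log_bound hu hδ hδ0 hr0 hr1 hθ.1 hθ1
    rw [← hM, ← ei] at hlog
    have hnorm : ‖1 - ((R : ℂ) * Complex.exp (θ * I))⁻¹‖ ≤ 2 * d := by
      rw [ei]
      have e3 : (1 : ℂ) - r * Complex.exp (-(θ * I)) =
          ((1 - r : ℝ) : ℂ) - r * (Complex.exp (-(θ * I)) - 1) := by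
        push_cast; ring
      have he : ‖Complex.exp (-(θ * I)) - 1‖ ≤ θ := by
        have := Real.norm_exp_I_mul_ofReal_sub_one_le (x := -θ)
        rw [Real.norm_eq_abs, abs_neg, abs_of_nonneg hθ.1] at this
        rw [show -((θ : ℂ) * I) = I * ((-θ : ℝ) : ℂ) by push_cast; ring]
        exact this
      rw [e3]
      refine (norm_sub_le _ _).trans ?_
      rw [norm_mul, Complex.norm_real, Complex.norm_real, Real.norm_of_nonneg (by linarith),
        Real.norm_of_nonneg hr0.le]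
      have h5 : r * ‖Complex.exp (-(θ * I)) - 1‖ ≤ 1 * θ :=
        mul_le_mul hr1.le he (norm_nonneg _) zero_le_one
      linarith
    have hpos : 0 < ‖1 - ((R : ℂ) * Complex.exp (θ * I))⁻¹‖ := by
      have := re_pos1 (hout θ)
      exact lt_of_lt_of_le this (Complex.re_le_norm _)
    beta_reduce
    rw [Complex.norm_exp]
    have h3 := re_low t hu _ hlog
    rw [ht] at h3
    have e5 : (2 * d) ^ (-κ) * Real.exp (-(‖t‖ * (π + M))) =
        Real.exp (-κ * Real.log (2 * d) - ‖t‖ * (π + M)) := by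
      rw [Real.rpow_def_of_pos (by positivity), ← Real.exp_add]
      congr 1
      ring
    rw [e5]
    refine Real.exp_le_exp.2 (le_trans ?_ h3)
    have l1 := Real.log_le_log hpos hnorm
    have k1 : -κ * Real.log (2 * d) ≤ -κ * Real.log ‖1 - ((R : ℂ) * Complex.exp (θ * I))⁻¹‖ :=
      mul_le_mul_of_nonpos_left l1 (by linarith)
    linarith
  rw [intervalIntegral.integral_const, sub_zero, smul_eq_mul, Real.mul_rpow (by norm_num) hd0.le]
    at h2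
  have h3 := h2.trans h1
  have h4 := mul_le_mul_of_nonneg_left h3 (show 0 ≤ (2 * π)⁻¹ by positivity)
  rw [hF] at h4
  refine le_trans ?_ h4
  have h6 := mul_le_mul_of_nonneg_left hL
    (show 0 ≤ (2 * π)⁻¹ * (δ * (2 ^ (-κ) * Real.exp (-(‖t‖ * (π + M))))) by positivity)
  refine h6.trans (le_of_eq ?_)
  ring

/-- the circle means of `|exp (t h)|` are at least `c (R²/(R²-1))^s` for one function of the
class -/
def Low (t : ℂ) (s : ℝ) : Prop :=
  ∃ ψ h : ℂ → ℂ, DifferentiableOn ℂ ψ {z : ℂ | 1 < ‖z‖} ∧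
    InjOn ψ {z : ℂ | 1 < ‖z‖} ∧
    (∃ b : ℂ, Filter.Tendsto (fun z => ψ z - z) (Bornology.cobounded ℂ) (nhds b)) ∧
    DifferentiableOn ℂ h {z : ℂ | 1 < ‖z‖} ∧
    (∀ z : ℂ, 1 < ‖z‖ → Complex.exp (h z) = deriv ψ z) ∧
    Filter.Tendsto h (Bornology.cobounded ℂ) (nhds 0) ∧
    ∃ c : ℝ, 0 < c ∧ ∀ R : ℝ, 1 < R →
      c * (R ^ 2 / (R ^ 2 - 1)) ^ s ≤
        (2 * π)⁻¹ *
          (∫ θ in (0:ℝ)..(2 * π), ‖Complex.exp (t * h (R * Complex.exp (θ * I)))‖)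

theorem low_mono {t : ℂ} {s s' : ℝ} (hs : s' ≤ s) (H : Low t s) : Low t s' := by
  obtain ⟨ψ, h, a1, a2, a3, a4, a5, a6, c, hc, H⟩ := H
  refine ⟨ψ, h, a1, a2, a3, a4, a5, a6, c, hc, fun R hR => le_trans ?_ (H R hR)⟩
  refine mul_le_mul_of_nonneg_left ?_ hc.le
  refine Real.rpow_le_rpow_of_exponent_le ?_ hs
  have h1 : 0 < R ^ 2 - 1 := by nlinarith
  rw [one_le_div h1]
  linarith

theorem low_u (hu : ‖u‖ = 1) (hu1 : u ≠ -1) {t : ℂ} (ht : (t * u).re < -1) :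
    Low t (-(t * u).re - 1) := by
  obtain ⟨c, hc, H⟩ := mean_low hu hu1 (t := t) (κ := -(t * u).re) (by linarith) (by ring)
  exact ⟨psi u, hh u, psi_diff hu, psi_injOn hu, ⟨_, psi_tendsto u⟩, hh_diff hu,
    fun _ hz => exp_hh hu hz, hh_tendsto u, c, hc, H⟩

/-- every exponent below `|t| - 1` -/
theorem low_all {t : ℂ} (h1 : 1 < ‖t‖) {s : ℝ} (hs : s < ‖t‖ - 1) : Low t s := by
  have hn0 : 0 < ‖t‖ := by linarith
  -- the directions `v φ = - conj t / |t| e^(i φ)`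
  obtain ⟨v, hv⟩ : ∃ v : ℝ → ℂ, v = fun φ : ℝ => -(conj t / ‖t‖) * Complex.exp (φ * I) :=
    ⟨_, rfl⟩
  have hvn : ∀ φ, ‖v φ‖ = 1 := by
    intro φ
    rw [hv]
    simp only
    rw [norm_mul, Complex.norm_exp_ofReal_mul_I, mul_one, norm_neg, norm_div, RCLike.norm_conj,
      Complex.norm_real, norm_norm, div_self hn0.ne']
  have hnC : (‖t‖ : ℂ) ≠ 0 := by exact_mod_cast hn0.ne'
  have hre : ∀ φ, (t * v φ).re = -(‖t‖ * Real.cos φ) := by
    intro φ
    have e : t * v φ = ((-‖t‖ : ℝ) : ℂ) * Complex.exp (φ * I) := by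
      rw [hv]
      simp only
      have e2 : t * conj t = (‖t‖ : ℂ) ^ 2 := Complex.mul_conj' t
      have : t * (-(conj t / ‖t‖) * Complex.exp (φ * I)) =
          -(t * conj t / ‖t‖) * Complex.exp (φ * I) := by ring
      rw [this, e2]
      push_cast
      field_simp
    rw [e, Complex.re_ofReal_mul, Complex.exp_ofReal_mul_I_re]
    ring
  -- a small angle
  have hcont : Filter.Tendsto (fun φ : ℝ => ‖t‖ * Real.cos φ) (𝓝 0) (𝓝 ‖t‖) := by
    have : Continuous (fun φ : ℝ => ‖t‖ * Real.cos φ) := by fun_prop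
    have h2 := this.tendsto 0
    simpa using h2
  have hev : ∀ᶠ φ in 𝓝 (0 : ℝ), max (s + 1) 1 < ‖t‖ * Real.cos φ :=
    hcont.eventually (lt_mem_nhds (max_lt (by linarith) h1))
  obtain ⟨η, hη, hη1⟩ := Metric.eventually_nhds_iff.1 hev
  obtain ⟨φ, hφ0, hφ1, hφ2⟩ : ∃ φ : ℝ, 0 < φ ∧ φ < η ∧ φ < 1 :=
    ⟨min (η / 2) (1 / 2), by positivity, by
      refine (min_le_left _ _).trans_lt ?_
      linarith, by
      refine (min_le_right _ _).trans_lt ?_
      norm_num⟩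
  have hφ : max (s + 1) 1 < ‖t‖ * Real.cos φ :=
    hη1 (by rw [Real.dist_eq, sub_zero, abs_of_pos hφ0]; exact hφ1)
  have h0 : max (s + 1) 1 < ‖t‖ * Real.cos 0 :=
    hη1 (by rw [dist_self]; exact hη)
  -- at most one of the two directions is `-1`
  have hne : v 0 ≠ v φ := by
    rw [hv]
    simp only
    intro h
    have h2 : -(conj t / (‖t‖ : ℂ)) ≠ 0 := by
      intro h3
      have h4 := hvn 0
      rw [hv] at h4
      simp only at h4
      rw [h3, zero_mul, norm_zero] at h4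
      exact zero_ne_one h4
    have h3 := mul_left_cancel₀ h2 h
    have h4 := congrArg Complex.im h3
    rw [Complex.exp_ofReal_mul_I_im, Complex.exp_ofReal_mul_I_im, Real.sin_zero] at h4
    have h5 : 0 < Real.sin φ := Real.sin_pos_of_pos_of_lt_pi hφ0 (by linarith [Real.pi_gt_three])
    linarith
  have key : ∀ x : ℝ, max (s + 1) 1 < ‖t‖ * Real.cos x → v x ≠ -1 → Low t s := by
    intro x hx hx1
    have h2 := hre x
    have h3 := (le_max_left _ _).trans_lt hx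
    have h4 := (le_max_right _ _).trans_lt hx
    exact low_mono (by rw [h2]; linarith) (low_u (hvn x) hx1 (t := t) (by rw [h2]; linarith))
  by_cases h : v 0 = -1
  · refine key φ hφ ?_
    intro h2
    exact hne (h.trans h2.symm)
  · exact key 0 h0 h

theorem real_low {a b r X ε : ℝ} (hr : 0 < r) (hr1 : r ≤ 1 / 4) (hrε : r ≤ ε) (hε1 : ε ≤ 1)
    (hsq : r ^ 2 = a ^ 2 + b ^ 2) (ha : |a| ≤ r) (hX : X = 2 - a) :
    (X + b ^ 2 / 4 - ε * r ^ 2) ^ 2 < X ^ 2 + b ^ 2 := by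
  rw [abs_le] at ha
  have hε : 0 < ε := hr.trans_le hrε
  have hr2 : 0 < r ^ 2 := by positivity
  have hb : b ^ 2 ≤ r ^ 2 := by nlinarith
  have h1 : -a * b ^ 2 ≤ ε * r ^ 2 := by
    have e1 : -a * b ^ 2 ≤ r * b ^ 2 :=
      mul_le_mul_of_nonneg_right (by linarith) (sq_nonneg b)
    have e2 : r * b ^ 2 ≤ ε * r ^ 2 := mul_le_mul hrε hb (sq_nonneg b) hε.le
    linarith
  have h4 : r ^ 4 ≤ ε * r ^ 2 / 4 := by
    have e1 : r * r ≤ ε * (1 / 4) := mul_le_mul hrε hr1 hr.le hε.le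
    have e2 : r ^ 4 = r * r * r ^ 2 := by ring
    rw [e2]
    have := mul_le_mul_of_nonneg_right e1 hr2.le
    linarith
  have h5 : b ^ 4 ≤ r ^ 4 := by
    have e1 : b ^ 4 = b ^ 2 * b ^ 2 := by ring
    have e2 : r ^ 4 = r ^ 2 * r ^ 2 := by ring
    rw [e1, e2]
    exact mul_le_mul hb hb (sq_nonneg b) hr2.le
  have h6 : ε ^ 2 * r ^ 4 ≤ ε * r ^ 2 / 4 := by
    have e1 : ε ^ 2 ≤ 1 := by nlinarith
    have : ε ^ 2 * r ^ 4 ≤ 1 * r ^ 4 := mul_le_mul_of_nonneg_right e1 (by positivity)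
    linarith
  have h7 : (b ^ 2 / 4 - ε * r ^ 2) ^ 2 ≤ 2 * (b ^ 4 / 16) + 2 * (ε ^ 2 * r ^ 4) := by
    nlinarith [sq_nonneg (b ^ 2 / 4 + ε * r ^ 2)]
  have h8 : 3 / 2 * (ε * r ^ 2) ≤ X * (ε * r ^ 2) :=
    mul_le_mul_of_nonneg_right (by linarith [ha.2]) (by positivity)
  have h9 : X * b ^ 2 = 2 * b ^ 2 - a * b ^ 2 := by rw [hX]; ring
  have h10 : (X + b ^ 2 / 4 - ε * r ^ 2) ^ 2 =
      X ^ 2 + X * b ^ 2 / 2 - 2 * (X * (ε * r ^ 2)) + (b ^ 2 / 4 - ε * r ^ 2) ^ 2 := by ring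
  have hp : 0 < ε * r ^ 2 := by positivity
  rw [h10]
  linarith

theorem norm_low {τ : ℂ} {ε : ℝ} (hε1 : ε ≤ 1) (h1 : ‖τ‖ ≤ 1 / 4) (h2 : ‖τ‖ ≤ ε) (h0 : τ ≠ 0) :
    1 - τ.re + τ.im ^ 2 / 4 - ε * ‖τ‖ ^ 2 < ‖2 - τ‖ - 1 := by
  have hn : 0 < ‖τ‖ := norm_pos_iff.2 h0
  have ha := Complex.abs_re_le_norm τ
  have hsq : ‖τ‖ ^ 2 = τ.re ^ 2 + τ.im ^ 2 := by
    rw [← Complex.normSq_eq_norm_sq, Complex.normSq_apply]
    ring
  have hsq2 : ‖2 - τ‖ ^ 2 = (2 - τ.re) ^ 2 + τ.im ^ 2 := by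
    rw [← Complex.normSq_eq_norm_sq, Complex.normSq_apply]
    simp
    ring
  have hx : (2 - τ.re) + τ.im ^ 2 / 4 - ε * ‖τ‖ ^ 2 < ‖2 - τ‖ := by
    refine lt_of_pow_lt_pow_left₀ 2 (norm_nonneg _) ?_
    rw [hsq2]
    exact real_low hn h1 h2 hε1 hsq ha rfl
  linarith

/-- the lower bound near `t = 2` -/
theorem low_near {ε : ℝ} (hε : 0 < ε) : ∃ δ : ℝ, 0 < δ ∧ ∀ τ : ℂ, τ ≠ 0 → ‖τ‖ < δ →
    Low (2 - τ) (1 - τ.re + τ.im ^ 2 / 4 - ε * ‖τ‖ ^ 2) := by
  refine ⟨min (1 / 4) (min ε 1), by positivity, fun τ h0 hτ => ?_⟩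
  have h1 : ‖τ‖ ≤ 1 / 4 := hτ.le.trans (min_le_left _ _)
  have h2 : ‖τ‖ ≤ min ε 1 := hτ.le.trans (min_le_right _ _)
  have h5 : min ε 1 * ‖τ‖ ^ 2 ≤ ε * ‖τ‖ ^ 2 :=
    mul_le_mul_of_nonneg_right (min_le_left _ _) (by positivity)
  refine low_all ?_ (lt_of_le_of_lt ?_ (norm_low (min_le_right ε 1) h1 h2 h0))
  · have h3 := norm_sub_norm_le (2 : ℂ) τ
    have h4 : ‖(2 : ℂ)‖ = 2 := by simp
    rw [h4] at h3
    linarith
  · linarith

end Pool.Agent.Helper39.G4L
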