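import Pool.Agent.Helper39.G4L.Low

/-!
# Project G4 (MP_16b0ee_an): the behaviour near `t = 2`, both bounds

`Upper t s`: the circle means of `|exp (t h)|`, `h = log ψ'`, are `O ((R² / (R² - 1))^s)` uniformly in
the class. `upper_mid`: midpoint convexity. `cone`: a strict bound for real `τ` and the bound with
`1 / 4 + ε` for complex `τ` give a strict bound in a cone around the real segment.
-/

set_option autoImplicit false

open Complex MeasureTheory Metric Set Filter Topology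
open scoped Real ComplexConjugate

namespace Pool.Agent.Helper39.G4L

/-- the circle means of `|exp (t h)|` are at most `C (R²/(R²-1))^s`, `C` independent of the function of
the class and of `R` -/
def Upper (t : ℂ) (s : ℝ) : Prop :=
  ∃ C : ℝ, ∀ ψ h : ℂ → ℂ, DifferentiableOn ℂ ψ {z : ℂ | 1 < ‖z‖} →
    InjOn ψ {z : ℂ | 1 < ‖z‖} →
    (∃ b : ℂ, Filter.Tendsto (fun z => ψ z - z) (Bornology.cobounded ℂ) (nhds b)) →
    DifferentiableOn ℂ h {z : ℂ | 1 < ‖z‖} →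
    (∀ z : ℂ, 1 < ‖z‖ → Complex.exp (h z) = deriv ψ z) →
    Filter.Tendsto h (Bornology.cobounded ℂ) (nhds 0) →
    ∀ R : ℝ, 1 < R →
      (2 * π)⁻¹ *
        (∫ θ in (0:ℝ)..(2 * π), ‖Complex.exp (t * h (R * Complex.exp (θ * I)))‖) ≤
        C * (R ^ 2 / (R ^ 2 - 1)) ^ s

theorem Y_ge {R : ℝ} (hR : 1 < R) : 1 ≤ R ^ 2 / (R ^ 2 - 1) := by
  have h1 : 0 < R ^ 2 - 1 := by nlinarith
  rw [one_le_div h1]
  linarith

theorem upper_mono {t : ℂ} {s s' : ℝ} (hs : s ≤ s') (H : Upper t s) : Upper t s' := by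
  obtain ⟨C, hC⟩ := H
  refine ⟨max C 0, fun ψ h a1 a2 a3 a4 a5 a6 R h1 => (hC ψ h a1 a2 a3 a4 a5 a6 R h1).trans ?_⟩
  have h3 := Y_ge h1
  have h4 : (R ^ 2 / (R ^ 2 - 1)) ^ s ≤ (R ^ 2 / (R ^ 2 - 1)) ^ s' :=
    Real.rpow_le_rpow_of_exponent_le h3 hs
  have h5 : 0 ≤ (R ^ 2 / (R ^ 2 - 1)) ^ s := by positivity
  calc C * (R ^ 2 / (R ^ 2 - 1)) ^ s ≤ max C 0 * (R ^ 2 / (R ^ 2 - 1)) ^ s :=
        mul_le_mul_of_nonneg_right (le_max_left _ _) h5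
    _ ≤ max C 0 * (R ^ 2 / (R ^ 2 - 1)) ^ s' :=
        mul_le_mul_of_nonneg_left h4 (le_max_right _ _)

theorem mid_point (t₁ t₂ w : ℂ) {x : ℝ} (hx : 0 < x) :
    ‖Complex.exp ((t₁ + t₂) / 2 * w)‖ ≤
      (x * ‖Complex.exp (t₁ * w)‖ + x⁻¹ * ‖Complex.exp (t₂ * w)‖) / 2 := by
  have e1 : Complex.exp (t₁ * w) = Complex.exp (t₁ * w / 2) ^ 2 := by
    rw [← Complex.exp_nat_mul]
    congr 1
    push_cast
    ring
  have e2 : Complex.exp (t₂ * w) = Complex.exp (t₂ * w / 2) ^ 2 := by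
    rw [← Complex.exp_nat_mul]
    congr 1
    push_cast
    ring
  have e3 : Complex.exp ((t₁ + t₂) / 2 * w) =
      Complex.exp (t₁ * w / 2) * Complex.exp (t₂ * w / 2) := by
    rw [← Complex.exp_add]
    congr 1
    ring
  rw [e1, e2, e3, norm_mul, norm_pow, norm_pow]
  obtain ⟨a, ha⟩ : ∃ a : ℝ, a = ‖Complex.exp (t₁ * w / 2)‖ := ⟨_, rfl⟩
  obtain ⟨b, hb⟩ : ∃ b : ℝ, b = ‖Complex.exp (t₂ * w / 2)‖ := ⟨_, rfl⟩
  rw [← ha, ← hb]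
  have h1 : 0 ≤ x⁻¹ * (x * a - b) ^ 2 := by positivity
  have h2 : x⁻¹ * (x * a - b) ^ 2 = x * a ^ 2 - 2 * (a * b) + x⁻¹ * b ^ 2 := by
    field_simp
    ring
  linarith

/-- midpoint convexity -/
theorem upper_mid {t₁ t₂ : ℂ} {s₁ s₂ : ℝ} (H₁ : Upper t₁ s₁) (H₂ : Upper t₂ s₂) :
    Upper ((t₁ + t₂) / 2) ((s₁ + s₂) / 2) := by
  obtain ⟨C₁, hC₁⟩ := H₁
  obtain ⟨C₂, hC₂⟩ := H₂
  refine ⟨(C₁ + C₂) / 2, fun ψ h a1 a2 a3 a4 a5 a6 R hR => ?_⟩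
  have k1 := hC₁ ψ h a1 a2 a3 a4 a5 a6 R hR
  have k2 := hC₂ ψ h a1 a2 a3 a4 a5 a6 R hR
  obtain ⟨Y, hY⟩ : ∃ Y : ℝ, Y = R ^ 2 / (R ^ 2 - 1) := ⟨_, rfl⟩
  have hY1 : 1 ≤ Y := by rw [hY]; exact Y_ge hR
  have hY0 : 0 < Y := by linarith
  rw [← hY] at k1 k2 ⊢
  obtain ⟨x, hx⟩ : ∃ x : ℝ, x = Y ^ ((s₂ - s₁) / 2) := ⟨_, rfl⟩
  have hx0 : 0 < x := by rw [hx]; positivity
  have hR0 : 0 < R := by linarith
  have hout : ∀ θ : ℝ, 1 < ‖(R : ℂ) * Complex.exp (θ * I)‖ := by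
    intro θ
    rw [norm_mul, Complex.norm_exp_ofReal_mul_I, mul_one, Complex.norm_real,
      Real.norm_of_nonneg hR0.le]
    exact hR
  have hc : ∀ t : ℂ, Continuous fun θ : ℝ =>
      ‖Complex.exp (t * h (R * Complex.exp (θ * I)))‖ := by
    intro t
    have h1 : Continuous (fun θ : ℝ => h (R * Complex.exp (θ * I))) :=
      a4.continuousOn.comp_continuous (by fun_prop) hout
    exact continuous_norm.comp (Complex.continuous_exp.comp (continuous_const.mul h1))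
  have hpi : (0:ℝ) ≤ 2 * π := by positivity
  have hle : ∫ θ in (0:ℝ)..(2 * π),
      ‖Complex.exp ((t₁ + t₂) / 2 * h (R * Complex.exp (θ * I)))‖ ≤
      ∫ θ in (0:ℝ)..(2 * π), (x / 2 * ‖Complex.exp (t₁ * h (R * Complex.exp (θ * I)))‖ +
        x⁻¹ / 2 * ‖Complex.exp (t₂ * h (R * Complex.exp (θ * I)))‖) := by
    refine intervalIntegral.integral_mono_on hpi ((hc _).intervalIntegrable _ _)
      (((continuous_const.mul (hc _)).add (continuous_const.mul (hc _))).intervalIntegrable _ _)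
      fun θ _ => ?_
    have := mid_point t₁ t₂ (h (R * Complex.exp (θ * I))) hx0
    linarith
  have hadd : ∫ θ in (0:ℝ)..(2 * π),
      (x / 2 * ‖Complex.exp (t₁ * h (R * Complex.exp (θ * I)))‖ +
        x⁻¹ / 2 * ‖Complex.exp (t₂ * h (R * Complex.exp (θ * I)))‖) =
      x / 2 * (∫ θ in (0:ℝ)..(2 * π), ‖Complex.exp (t₁ * h (R * Complex.exp (θ * I)))‖) +
        x⁻¹ / 2 * (∫ θ in (0:ℝ)..(2 * π), ‖Complex.exp (t₂ * h (R * Complex.exp (θ * I)))‖) := by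
    rw [← intervalIntegral.integral_const_mul, ← intervalIntegral.integral_const_mul]
    exact intervalIntegral.integral_add ((continuous_const.mul (hc _)).intervalIntegrable _ _)
      ((continuous_const.mul (hc _)).intervalIntegrable _ _)
  rw [hadd] at hle
  have e1 : x * Y ^ s₁ = Y ^ ((s₁ + s₂) / 2) := by
    rw [hx, ← Real.rpow_add hY0]
    congr 1
    ring
  have e2 : x⁻¹ * Y ^ s₂ = Y ^ ((s₁ + s₂) / 2) := by
    rw [hx, ← Real.rpow_neg hY0.le, ← Real.rpow_add hY0]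
    congr 1
    ring
  have k3 := mul_le_mul_of_nonneg_left k1 (show 0 ≤ x / 2 by positivity)
  have k4 := mul_le_mul_of_nonneg_left k2 (show 0 ≤ x⁻¹ / 2 by positivity)
  have k5 := mul_le_mul_of_nonneg_left hle (show 0 ≤ (2 * π)⁻¹ by positivity)
  have e3 : x / 2 * (C₁ * Y ^ s₁) = C₁ / 2 * Y ^ ((s₁ + s₂) / 2) := by
    rw [← e1]; ring
  have e4 : x⁻¹ / 2 * (C₂ * Y ^ s₂) = C₂ / 2 * Y ^ ((s₁ + s₂) / 2) := by
    rw [← e2]; ring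
  rw [e3] at k3
  rw [e4] at k4
  refine k5.trans ?_
  rw [mul_add]
  have e5 : (C₁ + C₂) / 2 * Y ^ ((s₁ + s₂) / 2) =
      C₁ / 2 * Y ^ ((s₁ + s₂) / 2) + C₂ / 2 * Y ^ ((s₁ + s₂) / 2) := by ring
  rw [e5]
  refine add_le_add (le_trans (le_of_eq ?_) k3) (le_trans (le_of_eq ?_) k4) <;> ring

/-- from the moments of `ψ'` -/
theorem upper_real {p s : ℝ}
    (H : ∃ C : ℝ, ∀ ψ : ℂ → ℂ,
      DifferentiableOn ℂ ψ {z : ℂ | 1 < ‖z‖} → Set.InjOn ψ {z : ℂ | 1 < ‖z‖} →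
      (∃ b : ℂ, Filter.Tendsto (fun z => ψ z - z) (Bornology.cobounded ℂ) (nhds b)) →
      ∀ R : ℝ, 1 < R →
      (1 / (2 * π)) * ∫ θ in (0:ℝ)..(2 * π),
        ‖deriv ψ ((R : ℂ) * Complex.exp ((θ : ℂ) * Complex.I))‖ ^ p ≤
        C * (R ^ 2 / (R ^ 2 - 1)) ^ s) : Upper (p : ℂ) s := by
  obtain ⟨C, hC⟩ := H
  refine ⟨C, fun ψ h a1 a2 a3 _ a5 _ R h1 => ?_⟩
  refine le_of_eq_of_le ?_ (hC ψ a1 a2 a3 R h1)
  rw [one_div]
  congr 1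
  refine intervalIntegral.integral_congr fun θ _ => ?_
  have hz : 1 < ‖(R : ℂ) * Complex.exp (θ * I)‖ := by
    rw [norm_mul, Complex.norm_exp_ofReal_mul_I, mul_one, Complex.norm_real, Real.norm_eq_abs]
    exact lt_of_lt_of_le h1 (le_abs_self R)
  have hw := a5 _ hz
  rw [← hw, Complex.norm_exp, Complex.norm_exp, ← Real.exp_mul, Complex.re_ofReal_mul]
  congr 1
  ring

/-- a strict bound in a cone -/
theorem cone
    (H3 : ∃ c : ℝ, 0 < c ∧ ∃ δ₀ : ℝ, 0 < δ₀ ∧ ∀ δ : ℝ, 0 < δ → δ < δ₀ →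
      Upper ((2 - δ : ℝ) : ℂ) (1 - δ + (1 / 4 - c) * δ ^ 2))
    (H4 : ∀ ε : ℝ, 0 < ε → ∃ δ₀ : ℝ, 0 < δ₀ ∧ ∀ τ : ℂ, τ ≠ 0 → ‖τ‖ < δ₀ →
      Upper (2 - τ) (1 - τ.re + (1 / 4 + ε) * ‖τ‖ ^ 2)) :
    ∃ c : ℝ, 0 < c ∧ ∃ δ₀ : ℝ, 0 < δ₀ ∧ ∀ τ : ℂ, τ ≠ 0 → ‖τ‖ < δ₀ → |τ.im| ≤ c * τ.re →
      Upper (2 - τ) (1 - τ.re + (1 / 4 - c) * ‖τ‖ ^ 2) := by
  obtain ⟨c₀, hc₀, δ₁, hδ₁, h3⟩ := H3
  obtain ⟨c, hc, hc1, hc2⟩ : ∃ c : ℝ, 0 < c ∧ c ≤ c₀ ∧ c ≤ 1 :=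
    ⟨min c₀ 1, by positivity, min_le_left _ _, min_le_right _ _⟩
  obtain ⟨δ₂, hδ₂, h4⟩ := H4 (c / 4) (by positivity)
  refine ⟨c / 8, by positivity, min δ₁ (δ₂ / 3), by positivity, fun τ h0 hτ him => ?_⟩
  obtain ⟨a, ha⟩ : ∃ a : ℝ, a = τ.re := ⟨_, rfl⟩
  obtain ⟨b, hb⟩ : ∃ b : ℝ, b = τ.im := ⟨_, rfl⟩
  have hτe : τ = ⟨a, b⟩ := by rw [ha, hb]
  rw [← ha, ← hb] at him
  have ha0 : 0 < a := by
    by_contra hneg
    push Not at hneg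
    have h1 : |b| ≤ 0 := him.trans (mul_nonpos_of_nonneg_of_nonpos (by positivity) hneg)
    have h2 : b = 0 := abs_eq_zero.1 (le_antisymm h1 (abs_nonneg b))
    have h3 : 0 ≤ a := by
      rw [h2, abs_zero] at him
      by_contra h4
      push Not at h4
      have : c / 8 * a < 0 := mul_neg_of_pos_of_neg (by positivity) h4
      linarith
    apply h0
    rw [hτe, h2, le_antisymm hneg h3]
    rfl
  have hτ1 : ‖τ‖ < δ₁ := hτ.trans_le (min_le_left _ _)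
  have hτ2 : ‖τ‖ < δ₂ / 3 := hτ.trans_le (min_le_right _ _)
  have haτ : a ≤ ‖τ‖ := by rw [ha]; exact Complex.re_le_norm τ
  have hbτ : |b| ≤ ‖τ‖ := by rw [hb]; exact Complex.abs_im_le_norm τ
  have k1 := h3 a ha0 (by linarith)
  obtain ⟨τ', hτ'⟩ : ∃ τ' : ℂ, τ' = ⟨a, 2 * b⟩ := ⟨_, rfl⟩
  have hn : ‖τ'‖ ≤ a + 2 * |b| := by
    refine (Complex.norm_le_abs_re_add_abs_im _).trans (le_of_eq ?_)
    rw [hτ']
    show |a| + |2 * b| = _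
    rw [abs_of_pos ha0, abs_mul, abs_two]
  have hne : τ' ≠ 0 := by
    intro h
    have h1 := congrArg Complex.re h
    rw [hτ'] at h1
    exact ha0.ne' h1
  have k2 := h4 τ' hne (by linarith)
  have k3 := upper_mid k1 k2
  have e1 : (((2 - a : ℝ) : ℂ) + (2 - τ')) / 2 = 2 - τ := by
    rw [hτe, hτ']
    apply Complex.ext
    · simp
    · simp
      ring
  rw [e1] at k3
  refine upper_mono ?_ k3
  have n1 : ‖τ‖ ^ 2 = a ^ 2 + b ^ 2 := by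
    rw [← Complex.normSq_eq_norm_sq, Complex.normSq_apply, ha, hb]
    ring
  have n2 : ‖τ'‖ ^ 2 = a ^ 2 + 4 * b ^ 2 := by
    rw [← Complex.normSq_eq_norm_sq, Complex.normSq_apply, hτ']
    ring
  have r1 : τ'.re = a := by rw [hτ']
  rw [n1, n2, r1, ← ha]
  have hb2 : b ^ 2 ≤ (c / 8) ^ 2 * a ^ 2 := by
    rw [← sq_abs, ← mul_pow]
    exact pow_le_pow_left₀ (abs_nonneg b) him 2
  have hb3 : (c / 8) ^ 2 * a ^ 2 ≤ c / 64 * a ^ 2 := by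
    refine mul_le_mul_of_nonneg_right ?_ (sq_nonneg a)
    nlinarith
  have hca : (c₀ - c) * a ^ 2 ≥ 0 := mul_nonneg (by linarith) (sq_nonneg a)
  have hcb : c * b ^ 2 ≤ 1 * b ^ 2 := mul_le_mul_of_nonneg_right hc2 (sq_nonneg b)
  nlinarith

end Pool.Agent.Helper39.G4L
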